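import Pool.Agent.H607R3.PS.Grade
import Pool.Agent.H51R3.PS.Common
import Pool.Agent.H594.PSRegP
import Pool.Agent.H841.PSRes
import Pool.Agent.H633R3.PS.Loc
import Pool.Agent.H291R3.PSB.Base

set_option autoImplicit false

/-! Dimension counts for the second ring `RP = RR[[X]]/(s X)`. -/

namespace Pool.Agent.W464.GradeDim

open Pool.Agent.H607R3.PS H51R3.PS IsLocalRing PowerSeries

section Base

variable {T : Type} [CommRing T] {α β γ : T}

/-- the map from `T[[X]]` -/
noncomputable def io (T : Type) [CommRing T] (α β γ : T) : PowerSeries T →+* RP T α β γ :=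
  (Ideal.Quotient.mk _).comp (PowerSeries.map (RR.emb : T →+* RR T α β γ))

/-- the map from `RP` to `T` killing `X`, `x`, `w` -/
noncomputable def toT (T : Type) [CommRing T] (α β γ : T) : RP T α β γ →+* T :=
  Ideal.Quotient.lift _ ((rho : RR T α β γ →+* T).comp
    (PowerSeries.constantCoeff (R := RR T α β γ))) (by
      intro f hf
      rw [Ideal.mem_span_singleton] at hf
      obtain ⟨c, rfl⟩ := hf
      simp)

theorem toT_toRP (u : RR T α β γ) : toT T α β γ (toRP u) = u.a := by
  change toT T α β γ (Ideal.Quotient.mk _ (PowerSeries.C u)) = _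
  unfold toT
  rw [Ideal.Quotient.lift_mk]
  simp [rho]

/-- the image of the power series variable -/
noncomputable def XP (T : Type) [CommRing T] (α β γ : T) : RP T α β γ :=
  Ideal.Quotient.mk _ PowerSeries.X

theorem toT_XP : toT T α β γ (XP T α β γ) = 0 := by
  unfold toT XP
  rw [Ideal.Quotient.lift_mk]
  simp

theorem toT_surj : Function.Surjective (toT T α β γ) := by
  intro t
  refine ⟨toRP (RR.emb t), ?_⟩
  rw [toT_toRP]
  rfl

theorem sXP : toRP (RR.s : RR T α β γ) * XP T α β γ = 0 := by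
  unfold toRP XP
  rw [RingHom.comp_apply, ← map_mul, Ideal.Quotient.eq_zero_iff_mem]
  exact Ideal.mem_span_singleton_self _

theorem decompP (v : RP T α β γ) : ∃ (u : RR T α β γ) (v' : RP T α β γ),
    v = toRP u + XP T α β γ * v' := by
  obtain ⟨f, rfl⟩ := Ideal.Quotient.mk_surjective v
  refine ⟨constantCoeff f, Ideal.Quotient.mk _ (PowerSeries.mk fun p => coeff (p + 1) f), ?_⟩
  unfold toRP XP
  rw [RingHom.comp_apply, ← map_mul, ← map_add]
  congr 1
  rw [← sub_const_eq_X_mul_shift]
  ring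

/-- the kernel of `toT` -/
theorem ker_toT (v : RP T α β γ) (hv : toT T α β γ v = 0) : ∃ p q r : RP T α β γ,
    v = toRP RR.x * p + toRP RR.w * q + XP T α β γ * r := by
  obtain ⟨u, v', rfl⟩ := decompP v
  rw [map_add, map_mul, toT_toRP, toT_XP, zero_mul, add_zero] at hv
  refine ⟨toRP (RR.emb u.b), toRP (RR.emb u.c), v', ?_⟩
  congr 1
  rw [← map_mul, ← map_mul, ← map_add]
  congr 1
  ext <;> simp [RR.x, RR.w, hv]

end Base

section Main

set_option linter.unusedSectionVars false
variable {T : Type} [CommRing T] [IsLocalRing T] [IsNoetherianRing T] [IsDomain T] {α β γ : T}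

/-- the prime -/
noncomputable def PP (T : Type) [CommRing T] (α β γ : T) : Ideal (RP T α β γ) :=
  (Ideal.span {α, β} : Ideal T).comap (toT T α β γ)

theorem PP_prime (hB : Base T α β γ) : (PP T α β γ).IsPrime := by
  have := hB.prime2
  exact Ideal.comap_isPrime _ _

theorem toT_gens (i : Fin 7) :
    toT T α β γ (gens (toRP (RR.x : RR T α β γ)) (toRP RR.y) (toRP RR.z) (toRP RR.w)
      (toRP RR.s) i) ∈ (Ideal.span {α, β} : Ideal T) := by
  have e : gens (toRP (RR.x : RR T α β γ)) (toRP RR.y) (toRP RR.z) (toRP RR.w)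
      (toRP RR.s) i = toRP (gens (RR.x : RR T α β γ) RR.y RR.z RR.w RR.s i) := by
    fin_cases i <;> simp [gens]
  rw [e, toT_toRP]
  exact rho_gens i

theorem cP_le_PP : cP T α β γ ≤ PP T α β γ := by
  unfold cP cI PP
  rw [Ideal.span_le]
  rintro _ ⟨i, rfl⟩
  rw [SetLike.mem_coe, Ideal.mem_comap]
  exact toT_gens i

theorem PP_minimal (hB : Base T α β γ) : PP T α β γ ∈
    (Ideal.span ({toRP (RR.emb α : RR T α β γ), toRP (RR.emb β : RR T α β γ)} :
      Set (RP T α β γ))).minimalPrimes := by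
  refine ⟨⟨PP_prime hB, ?_⟩, ?_⟩
  · rw [Ideal.span_le]
    intro r hr
    simp only [Set.mem_insert_iff, Set.mem_singleton_iff] at hr
    rw [SetLike.mem_coe]
    unfold PP
    rw [Ideal.mem_comap]
    rcases hr with rfl | rfl
    · rw [toT_toRP]; exact Ideal.subset_span (by simp)
    · rw [toT_toRP]; exact Ideal.subset_span (by simp)
  · rintro Q ⟨hQ, hQ2⟩ hle v hv
    have ha : toRP (RR.emb α : RR T α β γ) ∈ Q := hQ2 (Ideal.subset_span (by simp))
    have hb : toRP (RR.emb β : RR T α β γ) ∈ Q := hQ2 (Ideal.subset_span (by simp))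
    have hs : toRP (RR.s : RR T α β γ) ∉ Q := by
      intro h
      have h1 := hle h
      unfold PP at h1
      rw [Ideal.mem_comap, toT_toRP] at h1
      exact hB.notMem h1
    have hX : XP T α β γ ∈ Q := by
      have h1 : toRP (RR.s : RR T α β γ) * XP T α β γ ∈ Q := by rw [sXP]; exact Q.zero_mem
      exact (hQ.mem_or_mem h1).resolve_left hs
    have hx : toRP (RR.x : RR T α β γ) ∈ Q := by
      have h1 : toRP (RR.x : RR T α β γ) * toRP (RR.s : RR T α β γ) ∈ Q := by
        rw [← map_mul, RR.xs, map_zero]; exact Q.zero_mem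
      exact (hQ.mem_or_mem h1).resolve_right hs
    have hw : toRP (RR.w : RR T α β γ) ∈ Q := by
      have h1 : toRP (RR.w : RR T α β γ) * toRP (RR.s : RR T α β γ) ∈ Q := by
        rw [← map_mul, RR.ws, map_zero]; exact Q.zero_mem
      exact (hQ.mem_or_mem h1).resolve_right hs
    unfold PP at hv
    rw [Ideal.mem_comap, Ideal.mem_span_pair] at hv
    obtain ⟨c, d, hcd⟩ := hv
    have hk : toT T α β γ (v - (toRP (RR.emb c) * toRP (RR.emb α) +
        toRP (RR.emb d) * toRP (RR.emb β))) = 0 := by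
      rw [map_sub, map_add, map_mul, map_mul, toT_toRP, toT_toRP, toT_toRP, toT_toRP, ← hcd]
      simp
    obtain ⟨p, q, r, hpqr⟩ := ker_toT _ hk
    rw [sub_eq_iff_eq_add] at hpqr
    rw [hpqr]
    refine Ideal.add_mem _ (Ideal.add_mem _ (Ideal.add_mem _ ?_ ?_) ?_)
      (Ideal.add_mem _ ?_ ?_)
    · exact Ideal.mul_mem_right _ _ hx
    · exact Ideal.mul_mem_right _ _ hw
    · exact Ideal.mul_mem_right _ _ hX
    · exact Ideal.mul_mem_left _ _ ha
    · exact Ideal.mul_mem_left _ _ hb

theorem PP_height (hB : Base T α β γ) : (PP T α β γ).height ≤ 2 := by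
  have h := Ideal.height_le_card_of_mem_minimalPrimes_span (Set.toFinite _) (PP_minimal hB)
  refine h.trans ?_
  have h2 := Set.ncard_insert_le (toRP (RR.emb α : RR T α β γ))
    ({toRP (RR.emb β : RR T α β γ)} : Set (RP T α β γ))
  rw [Set.ncard_singleton] at h2
  exact_mod_cast h2

theorem len_le_dim {A : Type} [CommRing A] [IsNoetherianRing A] [IsLocalRing A] (rs : List A)
    (h : RingTheory.Sequence.IsRegular A rs) : ((rs.length : ℕ) : WithBot ℕ∞) ≤ ringKrullDim A := by
  have h1 := ringKrullDim_add_length_eq_ringKrullDim_of_isRegular rs h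
  have h3 : (0 : WithBot ℕ∞) ≤ ringKrullDim (A ⧸ Ideal.ofList rs) := by
    have : Nontrivial (A ⧸ Ideal.ofList rs) := by
      apply Ideal.Quotient.nontrivial_iff.mpr
      intro h2
      exact h.top_ne_smul (by rw [h2]; simp)
    exact ringKrullDim_nonneg_of_nontrivial
  rw [← h1]
  calc ((rs.length : ℕ) : WithBot ℕ∞) = 0 + ((rs.length : ℕ) : WithBot ℕ∞) := by rw [zero_add]
    _ ≤ _ := by gcongr

theorem len_le_height {A : Type} [CommRing A] [IsNoetherianRing A] (P : Ideal A) [P.IsPrime]
    (rs : List A) (h : RingTheory.Sequence.IsWeaklyRegular A rs) (hm : ∀ r ∈ rs, r ∈ P) :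
    ((rs.length : ℕ) : WithBot ℕ∞) ≤ P.height := by
  have h2 := h.isRegular_of_isLocalization_of_mem (Localization.AtPrime P) P hm
  have h3 := len_le_dim _ h2
  rw [List.length_map, IsLocalization.AtPrime.ringKrullDim_eq_height P
    (Localization.AtPrime P)] at h3
  exact h3

theorem len_le_two (hB : Base T α β γ) (rs : List (RP T α β γ))
    (hmem : ∀ r ∈ rs, r ∈ cP T α β γ)
    (hreg : RingTheory.Sequence.IsWeaklyRegular (RP T α β γ) rs) : rs.length ≤ 2 := by
  have := PP_prime hB
  have h1 := len_le_height (PP T α β γ) rs hreg (fun r hr => cP_le_PP (hmem r hr))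
  have h2 : (((rs.length : ℕ) : ℕ∞) : WithBot ℕ∞) ≤ ((PP T α β γ).height : WithBot ℕ∞) := h1
  rw [WithBot.coe_le_coe] at h2
  have h4 := h2.trans (PP_height hB)
  exact_mod_cast h4

theorem taskGradeP : TaskGradeP := by
  intro T _ _ _ _ α β γ hB
  rintro ⟨rs, hlen, hmem, hreg⟩
  have := PP_prime hB
  have h1 := len_le_height (PP T α β γ) rs hreg (fun r hr => cP_le_PP (hmem r hr))
  rw [hlen] at h1
  have h2 : (((3 : ℕ) : ℕ∞) : WithBot ℕ∞) ≤ ((PP T α β γ).height : WithBot ℕ∞) := h1
  rw [WithBot.coe_le_coe] at h2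
  have h4 := h2.trans (PP_height hB)
  exact absurd (by exact_mod_cast h4 : (3 : ℕ) ≤ 2) (by decide)

/-! ### the dimension of `RP` -/

/-- the element of T[[X]] as a combination -/
theorem io_decomp (f : PowerSeries (RR T α β γ)) : f =
    PowerSeries.map (RR.emb : T →+* RR T α β γ) (PowerSeries.mk fun n => (coeff n f).a) +
    PowerSeries.map (RR.emb : T →+* RR T α β γ) (PowerSeries.mk fun n => (coeff n f).b) * C RR.x +
    PowerSeries.map (RR.emb : T →+* RR T α β γ) (PowerSeries.mk fun n => (coeff n f).c) *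
      C RR.w := by
  ext1 n
  rw [map_add, map_add, coeff_mul_C, coeff_mul_C, coeff_map, coeff_map, coeff_map, coeff_mk,
    coeff_mk, coeff_mk]
  exact RR.decomp _

theorem io_decomp' (v : RP T α β γ) : ∃ p q r : PowerSeries T,
    v = io T α β γ p + io T α β γ q * toRP RR.x + io T α β γ r * toRP RR.w := by
  obtain ⟨f, rfl⟩ := Ideal.Quotient.mk_surjective v
  refine ⟨PowerSeries.mk fun n => (coeff n f).a, PowerSeries.mk fun n => (coeff n f).b,
    PowerSeries.mk fun n => (coeff n f).c, ?_⟩
  conv_lhs => rw [io_decomp f]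
  rw [map_add, map_add, map_mul, map_mul]
  rfl

theorem dim_ge_of_fin {A B : Type} [CommRing A] [CommRing B] (f : A →+* B)
    (hinj : Function.Injective f) (x w : B) (h : ∀ v : B, ∃ p q r : A, v = f p + f q * x + f r * w) :
    ringKrullDim A ≤ ringKrullDim B := by
  let _ := f.toAlgebra
  have hfin : Module.Finite A B := by
    classical
    refine ⟨⟨{1, x, w}, ?_⟩⟩
    rw [eq_top_iff]
    rintro v -
    obtain ⟨p, q, r, rfl⟩ := h v
    have e : f p + f q * x + f r * w = p • (1 : B) + q • x + r • w := by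
      rw [Algebra.smul_def, Algebra.smul_def, Algebra.smul_def, mul_one]
      rfl
    rw [e]
    refine Submodule.add_mem _ (Submodule.add_mem _ ?_ ?_) ?_
    · exact Submodule.smul_mem _ _ (Submodule.subset_span (by simp))
    · exact Submodule.smul_mem _ _ (Submodule.subset_span (by simp))
    · exact Submodule.smul_mem _ _ (Submodule.subset_span (by simp))
  have hint : Algebra.IsIntegral A B := inferInstance
  exact Pool.Agent.Helper834.EC.ringKrullDim_ge_of_integral hinj

/-- the coefficientwise projection onto the quotient by s -/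
theorem inj_s (p : PowerSeries T) (h : io T α β γ p ∈
    (Ideal.span {toRP (RR.s : RR T α β γ)} : Ideal (RP T α β γ))) : p = 0 := by
  rw [Ideal.mem_span_singleton'] at h
  obtain ⟨v, hv⟩ := h
  obtain ⟨f, rfl⟩ := Ideal.Quotient.mk_surjective v
  have h1 : Ideal.Quotient.mk (Ideal.span {PowerSeries.C (RR.s : RR T α β γ) * PowerSeries.X} :
      Ideal (PowerSeries (RR T α β γ))) (f * C RR.s -
      PowerSeries.map (RR.emb : T →+* RR T α β γ) p) = 0 := by
    rw [map_sub, map_mul, sub_eq_zero]
    exact hv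
  rw [Ideal.Quotient.eq_zero_iff_mem, Ideal.mem_span_singleton] at h1
  obtain ⟨r, hr⟩ := h1
  ext n
  have h2 := congrArg (coeff n) hr
  rw [map_sub, coeff_mul_C, coeff_map, mul_assoc, coeff_C_mul, sub_eq_iff_eq_add] at h2
  have h3 : (RR.emb (coeff n p) : RR T α β γ) =
      (coeff n f - coeff n (X * r)) * RR.s := by
    rw [sub_mul, h2]; ring
  rw [mul_s] at h3
  have e1 := congrArg RR.c h3
  have e2 := congrArg RR.a h3
  rw [RR.emb_c] at e1
  rw [RR.emb_a] at e2
  have e3 : (coeff n f - coeff n (X * r) : RR T α β γ).a = 0 := by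
    exact neg_eq_zero.1 e1.symm
  rw [e2, e3]
  simp

theorem dim_RP (hB : Base T α β γ) : (4 : WithBot ℕ∞) ≤ ringKrullDim (RP T α β γ) := by
  have h1 : ringKrullDim (PowerSeries T) = 4 := by
    rw [Pool.Agent.H291R3.PSB.dim_succ, hB.dim]
    norm_num
  let J : Ideal (RP T α β γ) := Ideal.span {toRP (RR.s : RR T α β γ)}
  have h2 : ringKrullDim (PowerSeries T) ≤ ringKrullDim (RP T α β γ ⧸ J) := by
    refine dim_ge_of_fin ((Ideal.Quotient.mk J).comp (io T α β γ)) ?_
      (Ideal.Quotient.mk J (toRP RR.x)) (Ideal.Quotient.mk J (toRP RR.w)) ?_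
    · rw [injective_iff_map_eq_zero]
      intro p hp
      apply inj_s (α := α) (β := β) (γ := γ) p
      rw [← Ideal.Quotient.eq_zero_iff_mem]
      exact hp
    · intro v
      obtain ⟨v, rfl⟩ := Ideal.Quotient.mk_surjective v
      obtain ⟨p, q, r, hv⟩ := io_decomp' v
      refine ⟨p, q, r, ?_⟩
      rw [hv, map_add, map_add, map_mul, map_mul]
      rfl
  rw [← h1]
  exact h2.trans (ringKrullDim_quotient_le J)

/-! ### the dimension of the quotient -/

theorem mem_cP (i : Fin 7) : gens (toRP (RR.x : RR T α β γ)) (toRP RR.y) (toRP RR.z)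
    (toRP RR.w) (toRP RR.s) i ∈ cP T α β γ := Ideal.subset_span ⟨i, rfl⟩

theorem dim_le_one {A : Type} [CommRing A] [IsNoetherianRing A] [IsLocalRing A] (e : A)
    (he : e ∈ maximalIdeal A) (key : ∀ Q : Ideal A, Q.IsPrime → e ∈ Q → Q.IsMaximal) :
    ringKrullDim A ≤ 1 := by
  have h1 := ringKrullDim_le_ringKrullDim_quotient_add_card ({e} : Finset A) (by
      intro t ht
      rw [Finset.coe_singleton, Set.mem_singleton_iff] at ht
      subst ht
      rw [IsLocalRing.ringJacobson_eq_maximalIdeal]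
      exact he)
  refine h1.trans ?_
  rw [Finset.card_singleton]
  have h5 : Ring.KrullDimLE 0 (A ⧸ Ideal.span ((({e} : Finset A) : Set A))) := by
    refine Ring.KrullDimLE.mk₀ fun I hI => ?_
    have hsurj : Function.Surjective (Ideal.Quotient.mk (Ideal.span ((({e} : Finset A) : Set A)))) :=
      Ideal.Quotient.mk_surjective
    have hp : (I.comap (Ideal.Quotient.mk (Ideal.span ((({e} : Finset A) : Set A))))).IsPrime :=
      Ideal.comap_isPrime _ _
    have h6 : (I.comap (Ideal.Quotient.mk (Ideal.span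
        ((({e} : Finset A) : Set A))))).IsMaximal := by
      refine key _ hp ?_
      rw [Ideal.mem_comap]
      have : Ideal.Quotient.mk (Ideal.span ((({e} : Finset A) : Set A))) e = 0 := by
        rw [Ideal.Quotient.eq_zero_iff_mem]
        exact Ideal.subset_span (by simp)
      rw [this]
      exact I.zero_mem
    have h7 := Ideal.map_comap_of_surjective _ hsurj I
    rcases Ideal.map_eq_top_or_isMaximal_of_surjective _ hsurj h6 with h8 | h8
    · rw [h7] at h8
      exact absurd h8 hI.ne_top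
    · rw [h7] at h8
      exact h8
  rw [Ring.krullDimLE_iff] at h5
  have h2 : ringKrullDim (A ⧸ Ideal.span ((({e} : Finset A) : Set A))) ≤ 0 := by
    exact_mod_cast h5
  calc _ ≤ (0 : WithBot ℕ∞) + (1 : ℕ) := by gcongr
    _ = 1 := by norm_num

theorem dim_quot_le_one {A : Type} [CommRing A] [IsNoetherianRing A] [IsLocalRing A]
    (I : Ideal A) (hI : I ≠ ⊤) (e : A) (he : e ∈ maximalIdeal A)
    (key : ∀ Q : Ideal A, Q.IsPrime → I ≤ Q → e ∈ Q → Q = maximalIdeal A) :
    ringKrullDim (A ⧸ I) ≤ 1 := by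
  have : Nontrivial (A ⧸ I) := Ideal.Quotient.nontrivial_iff.mpr hI
  have hloc : IsLocalRing (A ⧸ I) :=
    IsLocalRing.of_surjective' (Ideal.Quotient.mk _) Ideal.Quotient.mk_surjective
  refine dim_le_one (Ideal.Quotient.mk I e) ?_ ?_
  · intro hu
    obtain ⟨c, hc⟩ := hu.exists_right_inv
    obtain ⟨c, rfl⟩ := Ideal.Quotient.mk_surjective c
    rw [← map_mul, ← map_one (Ideal.Quotient.mk I), Ideal.Quotient.eq] at hc
    have h1 : e * c - 1 ∈ maximalIdeal A := le_maximalIdeal hI hc
    have h2 := Ideal.sub_mem _ (Ideal.mul_mem_right c _ he) h1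
    rw [sub_sub_cancel] at h2
    exact (Ideal.ne_top_iff_one _).mp (maximalIdeal.isMaximal _).ne_top h2
  · intro Q hQ heQ
    have hp : (Q.comap (Ideal.Quotient.mk I)).IsPrime := Ideal.comap_isPrime _ _
    have h1 := key _ hp (by
      intro v hv
      rw [Ideal.mem_comap, (Ideal.Quotient.eq_zero_iff_mem).2 hv]
      exact Q.zero_mem) heQ
    have h6 : (Q.comap (Ideal.Quotient.mk I)).IsMaximal := by rw [h1]; infer_instance
    have h7 := Ideal.map_comap_of_surjective (Ideal.Quotient.mk I) Ideal.Quotient.mk_surjective Q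
    rcases Ideal.map_eq_top_or_isMaximal_of_surjective (Ideal.Quotient.mk I)
      Ideal.Quotient.mk_surjective h6 with h8 | h8
    · rw [h7] at h8
      exact absurd h8 hQ.ne_top
    · rw [h7] at h8
      exact h8

theorem dim_quot (hB : Base T α β γ) [IsLocalRing (RR T α β γ)] :
    ringKrullDim (RP T α β γ ⧸ cP T α β γ) ≤ 1 := by
  obtain ⟨hα, hβ, hγ⟩ := mem_max hB
  have : IsLocalRing (RP T α β γ) := local_RP
  have hne : cP T α β γ ≠ ⊤ := cP_ne_top hα hβ hγ
  -- the parameter
  set e : RP T α β γ := toRP (RR.emb γ) + XP T α β γ with he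
  -- every prime containing cP and e contains everything
  have key : ∀ Q : Ideal (RP T α β γ), Q.IsPrime → cP T α β γ ≤ Q → e ∈ Q →
      Q = maximalIdeal (RP T α β γ) := by
    intro Q hQ hc heQ
    have hy : toRP (RR.y : RR T α β γ) ∈ Q := by
      have := hc (mem_cP 0)
      exact hQ.mem_of_pow_mem 3 this
    have hz : toRP (RR.z : RR T α β γ) ∈ Q := by
      have := hc (mem_cP 1)
      exact hQ.mem_of_pow_mem 2 this
    have hx : toRP (RR.x : RR T α β γ) ∈ Q := by
      have h3 : toRP (RR.x : RR T α β γ) ^ 2 + toRP RR.s ^ 2 * toRP RR.z ∈ Q := hc (mem_cP 3)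
      have h4 : toRP (RR.x : RR T α β γ) ^ 2 ∈ Q := by
        have := Ideal.sub_mem _ h3 (Ideal.mul_mem_left Q (toRP RR.s ^ 2) hz)
        rwa [add_sub_cancel_right] at this
      exact hQ.mem_of_pow_mem 2 h4
    have hw : toRP (RR.w : RR T α β γ) ∈ Q := by
      have h3 : toRP (RR.w : RR T α β γ) ^ 4 + toRP RR.s * toRP RR.y * toRP RR.z ∈ Q :=
        hc (mem_cP 4)
      have h4 : toRP (RR.w : RR T α β γ) ^ 4 ∈ Q := by
        have := Ideal.sub_mem _ h3 (Ideal.mul_mem_left Q (toRP RR.s * toRP RR.y) hz)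
        rwa [add_sub_cancel_right] at this
      exact hQ.mem_of_pow_mem 4 h4
    have hα' : toRP (RR.emb α : RR T α β γ) ∈ Q := by
      rw [← RR.x_sub_y, map_sub]; exact Ideal.sub_mem _ hx hy
    have hβ' : toRP (RR.emb β : RR T α β γ) ∈ Q := by
      rw [← RR.z_eq]; exact hz
    have hsX : toRP (RR.s : RR T α β γ) ∈ Q ∧ XP T α β γ ∈ Q := by
      have hγs : toRP (RR.s : RR T α β γ) + toRP RR.w = toRP (RR.emb γ) := by
        rw [← map_add, RR.s_add_w]
      have h1 : toRP (RR.s : RR T α β γ) + XP T α β γ ∈ Q := by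
        have : toRP (RR.s : RR T α β γ) + XP T α β γ = e - toRP RR.w := by
          rw [he, ← hγs]; ring
        rw [this]
        exact Ideal.sub_mem _ heQ hw
      have h2 : toRP (RR.s : RR T α β γ) * XP T α β γ ∈ Q := by rw [sXP]; exact Q.zero_mem
      rcases hQ.mem_or_mem h2 with h3 | h3
      · refine ⟨h3, ?_⟩
        have := Ideal.sub_mem _ h1 h3
        rwa [add_sub_cancel_left] at this
      · refine ⟨?_, h3⟩
        have := Ideal.sub_mem _ h1 h3
        rwa [add_sub_cancel_right] at this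
    have hγ' : toRP (RR.emb γ : RR T α β γ) ∈ Q := by
      rw [← RR.s_add_w, map_add]; exact Ideal.add_mem _ hsX.1 hw
    apply le_antisymm (le_maximalIdeal hQ.ne_top)
    intro v hv
    obtain ⟨u, v', rfl⟩ := decompP v
    have hX' : XP T α β γ * v' ∈ Q := Ideal.mul_mem_right _ _ hsX.2
    refine Ideal.add_mem _ ?_ hX'
    have hu : toRP u ∈ maximalIdeal (RP T α β γ) := by
      have := Ideal.sub_mem _ hv (le_maximalIdeal hQ.ne_top hX')
      rwa [add_sub_cancel_right] at this
    have hua : u.a ∈ maximalIdeal T := by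
      by_contra hcon
      have h1 : IsUnit u.a := by
        rw [mem_maximalIdeal, mem_nonunits_iff, not_not] at hcon
        exact hcon
      obtain ⟨c, hc⟩ := h1.exists_right_inv
      -- u * emb c = 1 + multiple of x, w
      have h2 : toRP (u * RR.emb c) ∈ maximalIdeal (RP T α β γ) := by
        rw [map_mul]; exact Ideal.mul_mem_right _ _ hu
      have h3 : (1 : RP T α β γ) ∈ maximalIdeal (RP T α β γ) := by
        have e1 : (1 : RR T α β γ) = u * RR.emb c - RR.emb (u.b * c) * RR.x -
            RR.emb (u.c * c) * RR.w := by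
          ext <;> simp [RR.x, RR.w, hc]
        rw [← map_one (toRP : RR T α β γ →+* RP T α β γ), e1, map_sub, map_sub]
        refine Ideal.sub_mem _ (Ideal.sub_mem _ h2 ?_) ?_
        · rw [map_mul]
          exact le_maximalIdeal hQ.ne_top (Ideal.mul_mem_left _ _ hx)
        · rw [map_mul]
          exact le_maximalIdeal hQ.ne_top (Ideal.mul_mem_left _ _ hw)
      exact (Ideal.ne_top_iff_one _).mp (maximalIdeal.isMaximal _).ne_top h3
    rw [hB.max] at hua
    have hua' : toRP (RR.emb u.a : RR T α β γ) ∈ Q := by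
      have hle : (Ideal.span {α, β, γ} : Ideal T) ≤
          Q.comap ((toRP : RR T α β γ →+* RP T α β γ).comp RR.emb) := by
        rw [Ideal.span_le]
        rintro t (rfl | rfl | rfl)
        · exact hα'
        · exact hβ'
        · exact hγ'
      exact hle hua
    rw [RR.decomp u, map_add, map_add, map_mul, map_mul]
    exact Ideal.add_mem _ (Ideal.add_mem _ hua' (Ideal.mul_mem_left _ _ hx))
      (Ideal.mul_mem_left _ _ hw)
  refine dim_quot_le_one _ hne e ?_ key
  intro hu
  have h3 := hu.map ((residue T).comp (toT T α β γ))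
  rw [RingHom.comp_apply, he, map_add, toT_toRP, toT_XP, add_zero,
      RR.emb_a, (residue_eq_zero_iff γ).mpr hγ] at h3
  exact not_isUnit_zero h3

theorem taskDimP' {T : Type} [CommRing T] [IsLocalRing T] [IsNoetherianRing T] [IsDomain T]
    {α β γ : T} (hB : Base T α β γ) [IsLocalRing (RR T α β γ)] :
    (2 : WithBot ℕ∞) + ringKrullDim (RP T α β γ ⧸ cP T α β γ) < ringKrullDim (RP T α β γ) := by
  have h1 := dim_RP hB
  have h2 := dim_quot hB
  calc (2 : WithBot ℕ∞) + ringKrullDim (RP T α β γ ⧸ cP T α β γ) ≤ 2 + 1 := by gcongr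
    _ = (3 : WithBot ℕ∞) := by norm_num
    _ < 4 := by exact_mod_cast (by decide : (3 : ℕ) < 4)
    _ ≤ _ := h1

end Main

end Pool.Agent.W464.GradeDim
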